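import Pool.Agent.N103.TLCl

set_option autoImplicit false

/-!
# The monodromy conjecture at the origin: sums, products, Thom-Sebastiani sums with
# `h (f₀ + ∑ y_j f_j) ^ a` and nondegenerate polynomials

We prove the monodromy conjecture for the local topological zeta functions at the origin of the
following polynomials `F`: for every pole `s₀` there is a root `s₀ - i`, `i ∈ ℕ`, of the local
Bernstein-Sato polynomial of `F`; by the theorem of Malgrange and Kashiwara, `exp(2 π i s₀)` is an
eigenvalue of the monodromy at a point of `F = 0` near the origin.

The building blocks are the polynomials `h(x₁, x₂) (f₀(x₁, x₂) + ∑ y_j f_j(x₁, x₂)) ^ a` with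
arbitrary polynomials `h`, `f₀`, `f_j` and `a ≥ 1` (`FF h f a`): all polynomials of degree at most one
in all but two variables, their powers, and the products with polynomials in the two variables.

Let `𝓘` and `𝓗` be the least classes of germs of ideals and of hypersurfaces at the origin with the
following properties.

* `𝓘` contains the principal ideals `(h (f₀ + ∑ y_j f_j) ^ a)`, and the following ideals for which the
  conjecture was known (`WeakLocal`): the unit ideal; the powers `(x ^ m)`; all non-zero ideals of
  `ℂ[x, y]`; the ideals of `ℂ[x₀, x₁, x₂]` generated by forms of the same degree, three of which are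
  algebraically independent; the ideals generated by forms of the same degree without a common zero
  outside the origin; the principal ideals `(g)` of nondegenerate polynomials, and of polynomials with
  very general coefficients at the vertices of the Newton polyhedron; it contains the principal
  ideals `(h)` and `(h ^ k)` with `h` in `𝓗`; and `𝓘` is closed under sums and products in disjoint sets of
  variables.
* `𝓗` contains the `h (f₀ + ∑ y_j f_j) ^ a` whose zeta function has at most a simple pole at `-1`, and
  plane curves, nondegenerate polynomials and polynomials with very general coefficients with the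
  same condition (`WeakHyp`); for `(f_j)` in `𝓘` and `g` in `𝓗`, `g(0) = 0`, it contains `∑ y_j f_j(x)` and
  `∑ y_j f_j(x) + g(z)`; for `h ∏_t (f_{t, j})_j ^ a_t` in `𝓘` it contains
  `h(x) ∏_t (∑_j y_{t, j} f_{t, j}(x)) ^ a_t`; and `𝓗` is closed under dropping variables which do not
  occur.

For example, `g(z) + ∑ y_j f_j(x)` where `g` is nondegenerate, with at most a simple pole at `-1`, and
where the ideal `(f_j)` is a sum or a product of principal ideals `(h (f₀ + ∑ y_j f_j) ^ a)` in disjoint
sets of variables.

The local zeta function of `F = h (f₀ + ∑ y_j f_j) ^ a` at the origin is described by `PointZeta`,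
`GermZeta` (in `Pool.Agent.N103.ZDefs`); the other building blocks and the rules for the zeta
functions are described in the classes `WeakLocal`, `WeakHyp` and `TQ`.

The proof: for the new building blocks, `germLin_sf`: every pole is a root of every `b` with
`H(x, y) b(s) F ^ s = P(s) F ^ (s + 1)`, `H(0) ≠ 0` (if `b(s₀) ≠ 0` for the candidate pole `s₀` of an
exceptional curve `E` over the origin of a resolution of `h` and of the ideal `(f₀, f_j)` in the plane,
the functional equation, pulled back to the neighbourhood of `E × {0}`, gives a rational solution of
a differential equation of first order on `E`, so that at most two points of `E` are special, and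
the sum of the contributions of `E` is regular at `s₀`; see `Pool.Agent.N103`). The induction for
the operations is `tq_closure`: the poles are sums of poles, the roots of the `b`-functions are sums
of roots.
-/

namespace Pool.Agent.N103.Shelf.LocalWeak

open MvPolynomial Pool.Agent.W574.SM Pool.Agent.W574.RO Pool.Agent.H628R4.TP
  Pool.Agent.Y229 Pool.Agent.Y230.TL Pool.Agent.R852.TL Pool.Agent.N103

/-- **The monodromy conjecture at the origin for the class generated by the polynomials
`h(x₁, x₂) (f₀(x₁, x₂) + ∑ y_j f_j(x₁, x₂)) ^ a` and the nondegenerate polynomials.** Let
`TQ (GermAt WeakLocal) (GermHyp WeakHyp) c A Z` be the classes of germs of ideals (`c = false`) and of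
hypersurfaces (`c = true`) at the origin with their local topological zeta functions `Z` which are
obtained from the germs of these polynomials, from the ideals in `WeakLocal` and from the
hypersurfaces in `WeakHyp` by sums and products in disjoint sets of variables, powers,
`h(x) ∏_t (∑_j y_{t, j} f_{t, j}(x)) ^ a_t`, and `∑ y_j f_j(x) + g(z)`. Let `F` be a polynomial such that
the principal ideal `(F)` is in the class, with the local topological zeta function `Z`, and let `b`
satisfy a functional equation `b(s) F ^ s = P(s) F ^ (s + 1)`, where `P(s)` is a differential operator
with formal (in particular convergent) power series at the origin as coefficients. Then for every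
pole `s₀` of `Z` there is `i ∈ ℕ` with `b(s₀ - i) = 0`. -/
theorem result (σ : Type) (F : MvPolynomial σ ℂ) (Z : RatFunc ℂ)
    (h : TQ (GermAt WeakLocal) (GermHyp WeakHyp) false ⟨σ, Fin 1, fun _ => F⟩ Z)
    (b : Polynomial ℂ) (hb : IsLocalBFunction F b) (s₀ : ℂ) (hs : Z.denom.eval s₀ = 0) :
    ∃ i : ℕ, b.eval (s₀ - i) = 0 :=
  germ_weak F Z h b hb s₀ hs

end Pool.Agent.N103.Shelf.LocalWeak
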