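import Pool.Agent.N103.GP.Final

/-!
# A gap theorem for the Künneth components of the powers of a variety

Let `X` be a smooth proper variety of dimension `d` which has, for all `s ≤ d`, cycles of codimension
`s` and `d - s` with nonzero intersection number (for example a projective variety: take the powers
of an ample divisor), and let `W` be a Weil cohomology theory, for example rational crystalline
cohomology. Consider the rational combinations of the Künneth components of the diagonal of the
power `X^n`; the dimension `rank W A (X^n)` of the space of the algebraic ones is at most the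
number `components W (X^n)` of the nonzero components, and this number is at least `n d + 1`.

**Theorem.** Either all Künneth components of `X` are algebraic, and then all combinations are
algebraic for all `n`, or the dimension is at most `3 d - 1` for ALL `n ≥ 2`: it does not grow with
`n`. The second case holds if the sign conjecture `C⁺(X)` is false.

So `C(X)`, hence `C⁺(X)`, is true as soon as for some power `X^n`, `n ≥ 2`, there are `3 d` linearly
independent algebraic combinations of the Künneth components, out of the `≥ n d + 1` (if `H^1(X) ≠ 0`:
out of `2 n d + 1`) ones which the standard conjectures predict.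

The theorem holds for the classes of cycles with rational coefficients, and also for linear
combinations of such classes with coefficients in the coefficient field of the theory.

Idea of the proof. Let `u < v` be two degrees which are not separated by the algebraic operators on
`H(X)` acting by scalars on the cohomology groups. An algebraic operator with eigenvalues `f i` on
`H^i(X^n)` gives operators on `X` with eigenvalues `f (i + 2 s)`, so `f (u + 2 s) = f (v + 2 s)` for
`s ≤ (n - 1) d`. Contraction of operators on `X × X` with the diagonal of the second factor, and the
positivity of the Betti numbers and of squares, show: if `j₁` is the largest odd degree in which `X`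
has cohomology, there is another one `j₂ ≤ j₁` such that `u + j₂` and `v + j₁` are not separated on
`X × X`. So also `f (u + j₂ + 2 s) = f (v + j₁ + 2 s)` for `s ≤ (n - 2) d`. These relations determine `f` from
`3 d - 1` of its values.
-/

open CategoryTheory AlgebraicGeometry

set_option autoImplicit false

universe u v

namespace Pool.Agent.Results.MP_fd35e1_ag.KunnethRankGap

open Pool.Agent.H914 VarClass Obj WeilCohomology Pool.Agent.N103.OC Pool.Agent.N103.WT
  Pool.Agent.N103.GP

/-- **Either all combinations of the Künneth components of all powers of `X` are algebraic, or at most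
`3 dim X - 1` linearly independent ones for each power.** -/
theorem result {k : Type u} [Field k] {𝒱 : VarClass k} {ops : CycleOps 𝒱}
    (W : WeilCohomology.{u, v} ops) (A : 𝒱.Obj → (ℕ → ℚ) → Prop)
    (hA : A = RationalWeight W ∨ A = SpanWeight W) (X : 𝒱.Obj) (hX : DualCycles ops X) :
    (((∀ m, A X (delta m)) ∧ ∀ n ≥ 1, (∀ c, A (pw X n) c) ∧
        rank W A (pw X n) = components W (pw X n)) ∨
      ((∃ m, ¬ A X (delta m)) ∧ ∀ n ≥ 2, rank W A (pw X n) + 1 ≤ 3 * X.dim)) ∧
    (¬ A X even → ∀ n ≥ 2, rank W A (pw X n) + 1 ≤ 3 * X.dim) ∧
    ∀ n ≥ 1, n * X.dim + 1 ≤ components W (pw X n) := by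
  obtain ⟨Op, h, hOp⟩ := exists_class hA
  have hP : Pairs W X := pairs_of_dual hX
  have hgap : (¬ ∀ m, A X (delta m)) → ∀ n ≥ 2, rank W A (pw X n) + 1 ≤ 3 * X.dim := by
    intro hC n hn
    obtain ⟨r, rfl⟩ : ∃ r, n = r + 2 := ⟨n - 2, by omega⟩
    rw [rank_eq h hOp]
    refine gap h hP (fun h' => hC fun m => ?_) r
    rw [hOp]
    exact h' m
  refine ⟨?_, fun he => hgap fun hC => he ?_, fun n hn => components_ge hP hn⟩
  · by_cases hC : ∀ m, A X (delta m)
    · refine Or.inl ⟨hC, fun n hn => ?_⟩
      have h1 : ∀ c, op W (pw X n) c ∈ Op (pw X n) :=
        all_mem h (fun m => (hOp _ _).1 (hC m)) n hn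
      refine ⟨fun c => (hOp _ _).2 (h1 c), ?_⟩
      rw [rank_eq h hOp]
      exact finrank_all h h1
    · refine Or.inr ⟨?_, hgap hC⟩
      push Not at hC
      exact hC
  · rw [hOp]
    exact all_mem h (fun m => (hOp _ _).1 (hC m)) 1 le_rfl even

end Pool.Agent.Results.MP_fd35e1_ag.KunnethRankGap
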